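import Pool.Agent.helper56.P3.Util

/-!
# P3, module D3: ultrametric positivity in a linearly ordered group with zero
-/

namespace Pool.Agent.helper56.P3

open Finset Pool.Agent.helper56.Per

section D3

variable {Γ : Type*} [LinearOrderedCommGroupWithZero Γ] {ι : Type*}

theorem psd_zpow_sum {κ : Type*} (s : Finset κ) (f : κ → ℤ) {D : Γ} (hD : D ≠ 0) :
    ∏ x ∈ s, D ^ f x = D ^ ∑ x ∈ s, f x := by
  classical
  induction s using Finset.induction_on with
  | empty => simp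
  | insert a s ha ih => rw [Finset.prod_insert ha, Finset.sum_insert ha, ih, zpow_add₀ hD]

theorem psd_cross (A B : Finset ι) (d : ι → ι → Γ) (w : ι → ℤ) {D : Γ} (hD0 : 0 < D)
    (h : ∀ a ∈ A, ∀ b ∈ B, d a b = D) :
    ∏ x ∈ A, ∏ y ∈ B, d x y ^ (w x * w y) = D ^ ((∑ x ∈ A, w x) * ∑ y ∈ B, w y) := by
  have hD : D ≠ 0 := hD0.ne'
  rw [Finset.sum_mul_sum, ← psd_zpow_sum _ _ hD]
  refine Finset.prod_congr rfl fun x hx => ?_
  rw [← psd_zpow_sum _ _ hD]
  refine Finset.prod_congr rfl fun y hy => ?_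
  rw [h x hx y hy]

theorem psd_split [DecidableEq ι] {s A B : Finset ι} (hs : s = A ∪ B) (hd : Disjoint A B)
    (f : ι → ι → Γ) :
    ∏ x ∈ s, ∏ y ∈ s, f x y = (∏ x ∈ A, ∏ y ∈ A, f x y) * (∏ x ∈ A, ∏ y ∈ B, f x y)
      * ((∏ x ∈ B, ∏ y ∈ A, f x y) * ∏ x ∈ B, ∏ y ∈ B, f x y) := by
  rw [hs, Finset.prod_union hd]
  congr 1
  · rw [← Finset.prod_mul_distrib]
    exact Finset.prod_congr rfl fun x _ => Finset.prod_union hd
  · rw [← Finset.prod_mul_distrib]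
    exact Finset.prod_congr rfl fun x _ => Finset.prod_union hd

/-- the splitting of the product for a decomposition with constant distance `D` in between -/
theorem psd_decomp [DecidableEq ι] {s A B : Finset ι} (hs : s = A ∪ B) (hdis : Disjoint A B)
    (d : ι → ι → Γ) (w : ι → ℤ) {D : Γ} (hD0 : 0 < D)
    (hsymm : ∀ x ∈ s, ∀ y ∈ s, d x y = d y x)
    (h : ∀ a ∈ A, ∀ b ∈ B, d a b = D) :
    ∏ x ∈ s, ∏ y ∈ s, d x y ^ (w x * w y)
      = (∏ x ∈ A, ∏ y ∈ A, d x y ^ (w x * w y)) * (∏ x ∈ B, ∏ y ∈ B, d x y ^ (w x * w y))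
        * D ^ (2 * ((∑ x ∈ A, w x) * ∑ y ∈ B, w y)) := by
  have hA : ∀ a ∈ A, a ∈ s := fun a ha => by rw [hs]; exact mem_union_left _ ha
  have hB : ∀ b ∈ B, b ∈ s := fun b hb => by rw [hs]; exact mem_union_right _ hb
  have h' : ∀ b ∈ B, ∀ a ∈ A, d b a = D := fun b hb a ha => by
    rw [hsymm b (hB b hb) a (hA a ha)]; exact h a ha b hb
  rw [psd_split hs hdis, psd_cross A B d w hD0 h, psd_cross B A d w hD0 h', two_mul,
    zpow_add₀ hD0.ne', mul_comm (∑ y ∈ B, w y)]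
  ac_rfl

theorem psd_zpow_decomp [DecidableEq ι] {s A B : Finset ι} (hs : s = A ∪ B)
    (hdis : Disjoint A B) (w : ι → ℤ) {D : Γ} (hD0 : 0 < D) :
    D ^ ((∑ x ∈ s, w x) ^ 2) = D ^ ((∑ x ∈ A, w x) ^ 2) * D ^ ((∑ x ∈ B, w x) ^ 2)
      * D ^ (2 * ((∑ x ∈ A, w x) * ∑ y ∈ B, w y)) := by
  rw [← zpow_add₀ hD0.ne', ← zpow_add₀ hD0.ne', hs, Finset.sum_union hdis]
  congr 1
  ring

/-- the maximum of `d` on a nonempty set -/
theorem psd_exists_max {s : Finset ι} (hne : s.Nonempty) (d : ι → ι → Γ) :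
    ∃ x1 ∈ s, ∃ y1 ∈ s, ∀ x ∈ s, ∀ y ∈ s, d x y ≤ d x1 y1 := by
  obtain ⟨p, hp, hmax⟩ := Finset.exists_max_image (s ×ˢ s) (fun p => d p.1 p.2)
    (hne.product hne)
  rw [Finset.mem_product] at hp
  exact ⟨p.1, hp.1, p.2, hp.2, fun x hx y hy => hmax (x, y) (Finset.mk_mem_product hx hy)⟩

theorem psd_le_aux [DecidableEq ι] (d : ι → ι → Γ) (w : ι → ℤ) (s : Finset ι) :
    ∀ D : Γ, (∀ x ∈ s, ∀ y ∈ s, 0 < d x y) → (∀ x ∈ s, ∀ y ∈ s, d x y ≤ D) →
    (∀ x ∈ s, ∀ y ∈ s, d x y = d y x) →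
    (∀ x ∈ s, ∀ y ∈ s, ∀ z ∈ s, d x z ≤ max (d x y) (d y z)) →
    (∀ x ∈ s, ∀ y ∈ s, d x x ≤ d x y) → 0 < D →
    ∏ x ∈ s, ∏ y ∈ s, d x y ^ (w x * w y) ≤ D ^ ((∑ x ∈ s, w x) ^ 2) := by
  induction s using Finset.strongInduction with
  | H s ih =>
    intro D hpos hD hsymm hult hdiag hD0
    rcases s.eq_empty_or_nonempty with rfl | hne
    · simp
    obtain ⟨x0, hx0, y0, hy0, hmax⟩ := psd_exists_max hne d
    set M := d x0 y0 with hM
    have hM0 : 0 < M := hpos _ hx0 _ hy0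
    refine le_trans ?_ (zpow_le_zpow_left₀ (sq_nonneg _) zero_le (hD _ hx0 _ hy0))
    -- the class of `x0`
    by_cases hcl : ∃ x ∈ s, d x0 x < M
    · obtain ⟨x2, hx2, hx2M⟩ := hcl
      set A := s.filter (fun x => d x0 x < M) with hA
      set B := s.filter (fun x => ¬ d x0 x < M) with hB
      have hs : s = A ∪ B := (Finset.filter_union_filter_not_eq _ s).symm
      have hdis : Disjoint A B := Finset.disjoint_filter_filter_not _ _ _
      have hAs : A ⊂ s := by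
        refine Finset.ssubset_iff_subset_ne.2 ⟨Finset.filter_subset _ _, fun h => ?_⟩
        have : y0 ∈ A := by rw [h]; exact hy0
        exact lt_irrefl _ (Finset.mem_filter.1 this).2
      have hBs : B ⊂ s := by
        refine Finset.ssubset_iff_subset_ne.2 ⟨Finset.filter_subset _ _, fun h => ?_⟩
        have : x2 ∈ B := by rw [h]; exact hx2
        exact (Finset.mem_filter.1 this).2 hx2M
      have hAB : ∀ a ∈ A, ∀ b ∈ B, d a b = M := by
        intro a ha b hb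
        obtain ⟨ha1, ha2⟩ := Finset.mem_filter.1 ha
        obtain ⟨hb1, hb2⟩ := Finset.mem_filter.1 hb
        refine le_antisymm (hmax _ ha1 _ hb1) ?_
        rcases le_max_iff.1 (le_trans (not_lt.1 hb2) (hult x0 hx0 a ha1 b hb1)) with h | h
        · exact absurd ha2 (not_lt.2 h)
        · exact h
      rw [psd_decomp hs hdis d w hM0 hsymm hAB, psd_zpow_decomp hs hdis w hM0]
      have e1 := ih A hAs M (fun x hx y hy => hpos x (hAs.1 hx) y (hAs.1 hy))
        (fun x hx y hy => hmax x (hAs.1 hx) y (hAs.1 hy))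
        (fun x hx y hy => hsymm x (hAs.1 hx) y (hAs.1 hy))
        (fun x hx y hy z hz => hult x (hAs.1 hx) y (hAs.1 hy) z (hAs.1 hz))
        (fun x hx y hy => hdiag x (hAs.1 hx) y (hAs.1 hy)) hM0
      have e2 := ih B hBs M (fun x hx y hy => hpos x (hBs.1 hx) y (hBs.1 hy))
        (fun x hx y hy => hmax x (hBs.1 hx) y (hBs.1 hy))
        (fun x hx y hy => hsymm x (hBs.1 hx) y (hBs.1 hy))
        (fun x hx y hy z hz => hult x (hBs.1 hx) y (hBs.1 hy) z (hBs.1 hz))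
        (fun x hx y hy => hdiag x (hBs.1 hx) y (hBs.1 hy)) hM0
      exact mul_le_mul' (mul_le_mul' e1 e2) le_rfl
    · push Not at hcl
      have hall : ∀ x ∈ s, d x0 x = M := fun x hx => le_antisymm (hmax _ hx0 _ hx) (hcl x hx)
      have hs : s = {x0} ∪ s.erase x0 := by
        rw [← Finset.insert_eq, Finset.insert_erase hx0]
      have hdis : Disjoint {x0} (s.erase x0) := by simp
      have hBs : s.erase x0 ⊂ s := Finset.erase_ssubset hx0
      have hAB : ∀ a ∈ ({x0} : Finset ι), ∀ b ∈ s.erase x0, d a b = M := by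
        intro a ha b hb
        rw [Finset.mem_singleton.1 ha]
        exact hall b (Finset.mem_of_mem_erase hb)
      rw [psd_decomp hs hdis d w hM0 hsymm hAB, psd_zpow_decomp hs hdis w hM0]
      have e2 := ih (s.erase x0) hBs M (fun x hx y hy => hpos x (hBs.1 hx) y (hBs.1 hy))
        (fun x hx y hy => hmax x (hBs.1 hx) y (hBs.1 hy))
        (fun x hx y hy => hsymm x (hBs.1 hx) y (hBs.1 hy))
        (fun x hx y hy z hz => hult x (hBs.1 hx) y (hBs.1 hy) z (hBs.1 hz))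
        (fun x hx y hy => hdiag x (hBs.1 hx) y (hBs.1 hy)) hM0
      have e1 : ∏ x ∈ ({x0} : Finset ι), ∏ y ∈ ({x0} : Finset ι), d x y ^ (w x * w y)
          ≤ M ^ ((∑ x ∈ ({x0} : Finset ι), w x) ^ 2) := by
        simp only [Finset.prod_singleton, Finset.sum_singleton]
        rw [hall x0 hx0, pow_two]
      exact mul_le_mul' (mul_le_mul' e1 e2) le_rfl

theorem psd_le (s : Finset ι) (d : ι → ι → Γ) (w : ι → ℤ) (D : Γ)
    (hpos : ∀ x ∈ s, ∀ y ∈ s, 0 < d x y) (hD : ∀ x ∈ s, ∀ y ∈ s, d x y ≤ D)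
    (hsymm : ∀ x ∈ s, ∀ y ∈ s, d x y = d y x)
    (hult : ∀ x ∈ s, ∀ y ∈ s, ∀ z ∈ s, d x z ≤ max (d x y) (d y z))
    (hdiag : ∀ x ∈ s, ∀ y ∈ s, d x x ≤ d x y) (hD0 : 0 < D) :
    ∏ x ∈ s, ∏ y ∈ s, d x y ^ (w x * w y) ≤ D ^ ((∑ x ∈ s, w x) ^ 2) := by
  classical
  exact psd_le_aux d w s D hpos hD hsymm hult hdiag hD0

theorem psd_prod_pos (s t : Finset ι) (d : ι → ι → Γ) (w : ι → ℤ)
    (hpos : ∀ x ∈ s, ∀ y ∈ t, 0 < d x y) :
    0 < ∏ x ∈ s, ∏ y ∈ t, d x y ^ (w x * w y) := by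
  rw [zero_lt_iff]
  exact Finset.prod_ne_zero_iff.2 fun x hx => Finset.prod_ne_zero_iff.2 fun y hy =>
    zpow_ne_zero _ (hpos x hx y hy).ne'

theorem psd_lt_aux [DecidableEq ι] (d : ι → ι → Γ) (w : ι → ℤ) {x0 : ι} (s : Finset ι) :
    ∀ D : Γ, (∀ x ∈ s, ∀ y ∈ s, 0 < d x y) → (∀ x ∈ s, ∀ y ∈ s, d x y ≤ D) →
    (∀ x ∈ s, ∀ y ∈ s, d x y = d y x) →
    (∀ x ∈ s, ∀ y ∈ s, ∀ z ∈ s, d x z ≤ max (d x y) (d y z)) →
    (∀ x ∈ s, ∀ y ∈ s, d x x ≤ d x y) → x0 ∈ s → d x0 x0 < D →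
    ∑ y ∈ s with d x0 y ≤ d x0 x0, w y ≠ 0 →
    ∏ x ∈ s, ∏ y ∈ s, d x y ^ (w x * w y) < D ^ ((∑ x ∈ s, w x) ^ 2) := by
  induction s using Finset.strongInduction with
  | H s ih =>
    intro D hpos hD hsymm hult hdiag hx0 hstr hw
    have hne : s.Nonempty := ⟨x0, hx0⟩
    obtain ⟨x1, hx1, y1, hy1, hmax⟩ := psd_exists_max hne d
    set M := d x1 y1 with hM
    have hM0 : 0 < M := hpos _ hx1 _ hy1
    have hMD : M ≤ D := hD _ hx1 _ hy1
    rcases eq_or_lt_of_le (hmax x0 hx0 x0 hx0) with hcase | hcase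
    · -- everything is in the class of `x0`
      have hall : s.filter (fun y => d x0 y ≤ d x0 x0) = s := by
        refine Finset.filter_true_of_mem fun y hy => ?_
        rw [hcase]
        exact hmax x0 hx0 y hy
      rw [hall] at hw
      refine lt_of_le_of_lt (psd_le_aux d w s M hpos hmax hsymm hult hdiag hM0) ?_
      rw [← hcase]
      exact zpow_lt_zpow_left₀ (by positivity) zero_le hstr
    · refine lt_of_lt_of_le ?_ (zpow_le_zpow_left₀ (sq_nonneg _) zero_le hMD)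
      set A := s.filter (fun x => d x0 x < M) with hA
      set B := s.filter (fun x => ¬ d x0 x < M) with hB
      have hs : s = A ∪ B := (Finset.filter_union_filter_not_eq _ s).symm
      have hdis : Disjoint A B := Finset.disjoint_filter_filter_not _ _ _
      have hx0A : x0 ∈ A := Finset.mem_filter.2 ⟨hx0, hcase⟩
      have hAs : A ⊂ s := by
        refine Finset.ssubset_iff_subset_ne.2 ⟨Finset.filter_subset _ _, fun h => ?_⟩
        have h1 : x1 ∈ A := by rw [h]; exact hx1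
        have h2 : y1 ∈ A := by rw [h]; exact hy1
        have h3 := (Finset.mem_filter.1 h1).2
        have h4 := (Finset.mem_filter.1 h2).2
        have h5 := hult x1 hx1 x0 hx0 y1 hy1
        rw [hsymm x1 hx1 x0 hx0] at h5
        exact absurd (lt_of_le_of_lt h5 (max_lt h3 h4)) (lt_irrefl _)
      have hBs : B ⊂ s := by
        refine Finset.ssubset_iff_subset_ne.2 ⟨Finset.filter_subset _ _, fun h => ?_⟩
        have : x0 ∈ B := by rw [h]; exact hx0
        exact (Finset.mem_filter.1 this).2 hcase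
      have hAB : ∀ a ∈ A, ∀ b ∈ B, d a b = M := by
        intro a ha b hb
        obtain ⟨ha1, ha2⟩ := Finset.mem_filter.1 ha
        obtain ⟨hb1, hb2⟩ := Finset.mem_filter.1 hb
        refine le_antisymm (hmax _ ha1 _ hb1) ?_
        rcases le_max_iff.1 (le_trans (not_lt.1 hb2) (hult x0 hx0 a ha1 b hb1)) with h | h
        · exact absurd ha2 (not_lt.2 h)
        · exact h
      have hfil : A.filter (fun y => d x0 y ≤ d x0 x0) = s.filter (fun y => d x0 y ≤ d x0 x0) := by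
        ext y
        simp only [Finset.mem_filter, hA]
        constructor
        · rintro ⟨⟨h1, _⟩, h3⟩
          exact ⟨h1, h3⟩
        · rintro ⟨h1, h3⟩
          exact ⟨⟨h1, lt_of_le_of_lt h3 hcase⟩, h3⟩
      rw [psd_decomp hs hdis d w hM0 hsymm hAB, psd_zpow_decomp hs hdis w hM0]
      have e1 := ih A hAs M (fun x hx y hy => hpos x (hAs.1 hx) y (hAs.1 hy))
        (fun x hx y hy => hmax x (hAs.1 hx) y (hAs.1 hy))
        (fun x hx y hy => hsymm x (hAs.1 hx) y (hAs.1 hy))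
        (fun x hx y hy z hz => hult x (hAs.1 hx) y (hAs.1 hy) z (hAs.1 hz))
        (fun x hx y hy => hdiag x (hAs.1 hx) y (hAs.1 hy)) hx0A hcase (by rw [hfil]; exact hw)
      have e2 := psd_le_aux d w B M (fun x hx y hy => hpos x (hBs.1 hx) y (hBs.1 hy))
        (fun x hx y hy => hmax x (hBs.1 hx) y (hBs.1 hy))
        (fun x hx y hy => hsymm x (hBs.1 hx) y (hBs.1 hy))
        (fun x hx y hy z hz => hult x (hBs.1 hx) y (hBs.1 hy) z (hBs.1 hz))
        (fun x hx y hy => hdiag x (hBs.1 hx) y (hBs.1 hy)) hM0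
      refine mul_lt_mul_of_pos_right ?_ (zpow_pos hM0 _)
      refine lt_of_lt_of_le (mul_lt_mul_of_pos_right e1 (psd_prod_pos B B d w
        fun x hx y hy => hpos x (hBs.1 hx) y (hBs.1 hy))) ?_
      exact mul_le_mul' le_rfl e2

theorem psd_lt [DecidableEq ι] (s : Finset ι) (d : ι → ι → Γ) (w : ι → ℤ)
    (hpos : ∀ x ∈ s, ∀ y ∈ s, 0 < d x y) (hD : ∀ x ∈ s, ∀ y ∈ s, d x y ≤ 1)
    (hsymm : ∀ x ∈ s, ∀ y ∈ s, d x y = d y x)
    (hult : ∀ x ∈ s, ∀ y ∈ s, ∀ z ∈ s, d x z ≤ max (d x y) (d y z))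
    (hdiag : ∀ x ∈ s, ∀ y ∈ s, d x x ≤ d x y) {x0 : ι} (hx0 : x0 ∈ s)
    (hstr : d x0 x0 < 1) (hw : ∑ y ∈ s with d x0 y ≤ d x0 x0, w y ≠ 0) :
    ∏ x ∈ s, ∏ y ∈ s, d x y ^ (w x * w y) < 1 := by
  have h := psd_lt_aux d w s 1 hpos hD hsymm hult hdiag hx0 hstr hw
  rwa [one_zpow] at h

end D3

end Pool.Agent.helper56.P3
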