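import Pool.Agent.helper56.P3.Util

/-!
# P3, module B4: dyadic valuation rings of algebraic extensions of `ℚ` have rank one
-/

namespace Pool.Agent.helper56.P3

open Finset Pool.Agent.helper56.Per

section B4

/-- a unit of `O` is a unit of a larger valuation ring -/
theorem val_one_of_le {k : Type*} [Field k] {O O' : ValuationSubring k} (h : O ≤ O') {x : k}
    (hx : O.valuation x = 1) : O'.valuation x = 1 := by
  have hx0 : x ≠ 0 := ne_zero_of_v_one hx
  have h1 : x ∈ O := (O.valuation_le_one_iff x).1 hx.le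
  have h2 : x⁻¹ ∈ O := by
    rw [← O.valuation_le_one_iff, map_inv₀, hx, inv_one]
  have h3 : O'.valuation x ≤ 1 := (O'.valuation_le_one_iff x).2 (h h1)
  have h4 : O'.valuation x⁻¹ ≤ 1 := (O'.valuation_le_one_iff _).2 (h h2)
  refine le_antisymm h3 ?_
  rw [map_inv₀] at h4
  by_contra hlt
  push Not at hlt
  exact absurd ((one_lt_inv₀ (zero_lt_iff.2 ((O'.valuation.ne_zero_iff).2 hx0))).2 hlt)
    (not_lt.2 h4)

/-- if a sum is zero and some term is not, two different terms have the same nonzero size -/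
theorem exists_pair_eq {K : Type*} [Field K] {Γ : Type*} [LinearOrderedCommGroupWithZero Γ]
    (v : Valuation K Γ) {ι : Type*} [DecidableEq ι] (s : Finset ι) (f : ι → K)
    (hsum : ∑ i ∈ s, f i = 0) {i0 : ι} (hi0 : i0 ∈ s) (h0 : f i0 ≠ 0) :
    ∃ i ∈ s, ∃ j ∈ s, i ≠ j ∧ f i ≠ 0 ∧ f j ≠ 0 ∧ v (f i) = v (f j) := by
  obtain ⟨m, hm, hmax⟩ := Finset.exists_max_image s (fun i => v (f i)) ⟨i0, hi0⟩
  have hm0 : v (f m) ≠ 0 := by
    intro h
    have := hmax i0 hi0
    rw [h] at this
    exact h0 ((v.zero_iff).1 (le_antisymm this zero_le))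
  have hfm0 : f m ≠ 0 := (v.ne_zero_iff).1 hm0
  by_contra hcon
  push Not at hcon
  have hlt : ∀ i ∈ s \ {m}, v (f i) < v (f m) := by
    intro i hi
    rw [Finset.mem_sdiff, Finset.mem_singleton] at hi
    refine lt_of_le_of_ne (hmax i hi.1) fun he => ?_
    have hfi : f i ≠ 0 := by
      intro hfi
      rw [hfi, map_zero] at he
      exact hm0 he.symm
    exact hcon i hi.1 m hm hi.2 hfi hfm0 he
  have := v.map_sum_eq_of_lt hm hlt
  rw [hsum, map_zero] at this
  exact hm0 this.symm

/-- odd integers are units if `v 2 < 1` -/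
theorem v_odd {K : Type*} [Field K] {Γ : Type*} [LinearOrderedCommGroupWithZero Γ]
    {v : Valuation K Γ} (h2 : v 2 < 1) {a : ℤ} (ha : Odd a) : v (a : K) = 1 := by
  obtain ⟨m, rfl⟩ := ha
  have hm : v ((m : ℤ) : K) ≤ 1 := by
    rcases Int.eq_nat_or_neg m with ⟨l, rfl | rfl⟩
    · rw [Int.cast_natCast]; exact v_nat_le v l
    · rw [Int.cast_neg, Int.cast_natCast, Valuation.map_neg]; exact v_nat_le v l
  have h1 : v (2 * (m : K)) < v 1 := by
    rw [map_mul, map_one]
    calc v 2 * v (m : K) ≤ v 2 * 1 := mul_le_mul' le_rfl hm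
      _ = v 2 := mul_one _
      _ < 1 := h2
  have e : ((2 * m + 1 : ℤ) : K) = 2 * (m : K) + 1 := by push_cast; ring
  rw [e, Valuation.map_add_eq_of_lt_right v h1, map_one]

/-- the size of a nonzero integer is a power of the size of `2` -/
theorem v_int_eq {K : Type*} [Field K] {Γ : Type*} [LinearOrderedCommGroupWithZero Γ]
    {v : Valuation K Γ} (h : ∀ a : ℤ, Odd a → v (a : K) = 1) {a : ℤ} (ha : a ≠ 0) :
    v (a : K) = v 2 ^ (padicValInt 2 a) := by
  obtain ⟨e, m, hm, rfl⟩ : ∃ (e : ℕ) (m : ℤ), Odd m ∧ a = 2 ^ e * m := by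
    obtain ⟨e, m, hm, he⟩ := Nat.exists_eq_two_pow_mul_odd (Int.natAbs_ne_zero.2 ha)
    rcases Int.natAbs_eq a with h1 | h1
    · exact ⟨e, m, by exact_mod_cast hm, by rw [h1, he]; push_cast; rfl⟩
    · exact ⟨e, -m, by rw [_root_.odd_neg]; exact_mod_cast hm, by rw [h1, he]; push_cast; ring⟩
  have hm0 : m ≠ 0 := by
    rintro rfl
    simp at hm
  have hval : padicValInt 2 (2 ^ e * m) = e := by
    have h2e : ((2 : ℤ) ^ e) ≠ 0 := pow_ne_zero _ (by norm_num)
    rw [padicValInt.mul h2e hm0]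
    have h1 : padicValInt 2 ((2 : ℤ) ^ e) = e := by
      rw [show ((2 : ℤ) ^ e) = (((2 ^ e : ℕ)) : ℤ) by push_cast; rfl, padicValInt.of_nat,
        padicValNat.prime_pow]
    have h3 : padicValInt 2 m = 0 := by
      apply padicValInt.eq_zero_of_not_dvd
      intro hd
      rcases hm with ⟨r, rfl⟩
      omega
    rw [h1, h3, add_zero]
  rw [hval]
  push_cast
  rw [map_mul, map_pow, h m hm, mul_one]

theorem rank_one {k : Type*} [Field k] [CharZero k] [Algebra.IsAlgebraic ℚ k]
    (O : ValuationSubring k) (h2 : O.valuation 2 < 1) (O' : ValuationSubring k) (h : O ≤ O') :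
    O' = O ∨ O' = ⊤ := by
  classical
  have hodd : ∀ a : ℤ, Odd a → O.valuation (a : k) = 1 := fun a ha => v_odd h2 ha
  have hodd' : ∀ a : ℤ, Odd a → O'.valuation (a : k) = 1 := fun a ha =>
    val_one_of_le h (hodd a ha)
  have h20 : (2 : k) ≠ 0 := two_ne_zero
  have hle2 : O'.valuation 2 ≤ 1 := by
    have := v_nat_le O'.valuation 2
    exact_mod_cast this
  have hv20 : O.valuation 2 ≠ 0 := (O.valuation.ne_zero_iff).2 h20
  have hv20' : O'.valuation 2 ≠ 0 := (O'.valuation.ne_zero_iff).2 h20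
  -- every nonzero element satisfies a relation with integer coefficients
  have key : ∀ y : k, y ≠ 0 → ∃ (N : ℕ) (M : ℤ), 0 < N ∧
      O.valuation (y ^ N * 2 ^ M) = 1 := by
    intro y hy
    have hyZ : IsAlgebraic ℤ y :=
      (IsFractionRing.isAlgebraic_iff ℤ ℚ k).2 (Algebra.IsAlgebraic.isAlgebraic y)
    obtain ⟨p, hp0, hp⟩ := hyZ
    rw [Polynomial.aeval_def, Polynomial.eval₂_eq_sum, Polynomial.sum_def] at hp
    obtain ⟨i0, hi0⟩ := Polynomial.support_nonempty.2 hp0
    have hne : ∀ i ∈ p.support, (algebraMap ℤ k) (p.coeff i) * y ^ i ≠ 0 := by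
      intro i hi
      refine mul_ne_zero ?_ (pow_ne_zero _ hy)
      rw [Ne, FaithfulSMul.algebraMap_eq_zero_iff]
      exact Polynomial.mem_support_iff.1 hi
    obtain ⟨i, hi, j, hj, hij, -, -, he⟩ := exists_pair_eq O.valuation p.support
      (fun i => (algebraMap ℤ k) (p.coeff i) * y ^ i) hp hi0 (hne i0 hi0)
    have hmain : ∀ i ∈ p.support, ∀ j ∈ p.support, i < j →
        O.valuation ((algebraMap ℤ k) (p.coeff i) * y ^ i)
          = O.valuation ((algebraMap ℤ k) (p.coeff j) * y ^ j) →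
        ∃ (N : ℕ) (M : ℤ), 0 < N ∧ O.valuation (y ^ N * 2 ^ M) = 1 := by
      intro i hi j hj hij he
      have hci := v_int_eq (v := O.valuation) hodd (Polynomial.mem_support_iff.1 hi)
      have hcj := v_int_eq (v := O.valuation) hodd (Polynomial.mem_support_iff.1 hj)
      simp only [eq_intCast] at he
      rw [map_mul, map_mul, hci, hcj, map_pow, map_pow] at he
      refine ⟨j - i, (padicValInt 2 (p.coeff j) : ℤ) - padicValInt 2 (p.coeff i),
        Nat.sub_pos_of_lt hij, ?_⟩
      have hy0 : O.valuation y ≠ 0 := (O.valuation.ne_zero_iff).2 hy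
      rw [map_mul, map_pow, map_zpow₀, zpow_sub₀ hv20, zpow_natCast, zpow_natCast]
      have e : O.valuation y ^ j = O.valuation y ^ (j - i) * O.valuation y ^ i := by
        rw [← pow_add, Nat.sub_add_cancel hij.le]
      rw [e] at he
      have h1 : O.valuation 2 ^ padicValInt 2 (p.coeff i) ≠ 0 := pow_ne_zero _ hv20
      have h3 : O.valuation y ^ i ≠ 0 := pow_ne_zero _ hy0
      rw [← mul_div_assoc, div_eq_one_iff_eq h1]
      apply mul_right_cancel₀ h3
      rw [he, mul_comm (O.valuation y ^ (j - i)), mul_assoc]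
    rcases lt_or_gt_of_ne hij with h1 | h1
    · exact hmain i hi j hj h1 he
    · exact hmain j hj i hi h1 he.symm
  by_cases hcase : O'.valuation 2 = 1
  · -- all nonzero elements are units
    right
    have hall : ∀ y : k, y ≠ 0 → O'.valuation y = 1 := by
      intro y hy
      obtain ⟨N, M, hN, hNM⟩ := key y hy
      have h1 := val_one_of_le h hNM
      rw [map_mul, map_zpow₀, hcase, one_zpow, mul_one, map_pow] at h1
      rcases lt_trichotomy (O'.valuation y) 1 with h3 | h3 | h3
      · exact absurd h1 (pow_lt_one' h3 hN.ne').ne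
      · exact h3
      · exact absurd h1 (one_lt_pow' h3 hN.ne').ne'
    rw [eq_top_iff]
    intro y _
    rw [← O'.valuation_le_one_iff]
    rcases eq_or_ne y 0 with rfl | hy
    · rw [map_zero]; exact zero_le
    · exact (hall y hy).le
  · left
    have hlt2 : O'.valuation 2 < 1 := lt_of_le_of_ne hle2 hcase
    refine le_antisymm ?_ h
    intro x hx
    by_contra hxO
    have hx0 : x ≠ 0 := by rintro rfl; exact hxO (zero_mem _)
    have hx1 : 1 < O.valuation x := by
      rw [← not_le, O.valuation_le_one_iff]; exact hxO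
    obtain ⟨N, M, hN, hNM⟩ := key x hx0
    have hMpos : 0 < M := by
      by_contra hM
      push Not at hM
      rw [map_mul, map_pow, map_zpow₀] at hNM
      have h1 : 1 ≤ O.valuation 2 ^ M := by
        obtain ⟨l, rfl⟩ : ∃ l : ℕ, M = -(l : ℤ) := ⟨M.natAbs, by omega⟩
        rw [zpow_neg, zpow_natCast]
        exact (one_le_inv₀ (zero_lt_iff.2 (pow_ne_zero _ hv20))).2 (pow_le_one' h2.le l)
      have h3 : 1 < O.valuation x ^ N := one_lt_pow' hx1 hN.ne'
      have h4 : 1 < O.valuation x ^ N * O.valuation 2 ^ M := by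
        calc (1 : _) < O.valuation x ^ N := h3
          _ = O.valuation x ^ N * 1 := (mul_one _).symm
          _ ≤ _ := mul_le_mul' le_rfl h1
      exact absurd hNM h4.ne'
    have h1 := val_one_of_le h hNM
    rw [map_mul, map_pow, map_zpow₀] at h1
    have h3 : O'.valuation x ^ N ≤ 1 := pow_le_one' ((O'.valuation_le_one_iff x).2 hx) N
    have h4 : O'.valuation 2 ^ M < 1 := by
      obtain ⟨l, rfl⟩ : ∃ l : ℕ, M = (l : ℤ) := ⟨M.natAbs, by omega⟩
      rw [zpow_natCast]
      exact pow_lt_one' hlt2 (by omega)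
    have h5 : O'.valuation x ^ N * O'.valuation 2 ^ M < 1 :=
      lt_of_le_of_lt (mul_le_mul' h3 le_rfl) (by rwa [one_mul])
    exact absurd h1 h5.ne

end B4

end Pool.Agent.helper56.P3
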